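import Pool.Agent.Run7.h935.Final

/-!
# The Bernoulli moment inequalities fail for some isolated hypersurface singularity

The singularity is `f = x³y + xy³ + z⁴w + zw⁴ + xyzw` in four variables.  It has `132` spectral
numbers, `ν(f) = 2` and `Γ_2 = V_2 - n ν / 12 = 22 + 1/180 - 22 > 0`, so the inequality
`(-1)^k Γ_{2k} ≥ 0` fails for `k = 1`.
-/

namespace Pool.Agent.Results.MP_e9f12e_ag.BernoulliCounterexample

open Run7.h935

/-- There is an isolated hypersurface singularity `f` in four variables, which has a normalized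
spectrum `α_0 ≤ … ≤ α_n`, and every normalized spectrum of `f` satisfies
`(-1)^k Γ_{2k}(α, α_n - α_0) < 0` for some `k ≥ 1`. -/
theorem result : ∃ f : MvPolynomial (Fin (2 + 2)) ℂ, IsIsolatedSingularity f ∧
    (∃ (n : ℕ) (α : Fin (n + 1) → ℚ),
      IsNormalizedSpectrum (f : MvPowerSeries (Fin (2 + 2)) ℂ) α) ∧
    ∀ (n : ℕ) (α : Fin (n + 1) → ℚ),
      IsNormalizedSpectrum (f : MvPowerSeries (Fin (2 + 2)) ℂ) α →
      ∃ k : ℕ, 1 ≤ k ∧
        (-1) ^ k * bernoulliMoment α (α (Fin.last n) - α 0) (2 * k) < 0 := by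
  refine ⟨NF.fP, NF.isolated_fP, ⟨131, NF.alF, ?_⟩, fun n α h => ⟨1, le_rfl, ?_⟩⟩
  · rw [NF.coe_fP]; exact NF.isNormalizedSpectrum_alF
  · rw [NF.coe_fP] at h
    rw [mul_one, NF.bernoulli_pos α h]
    norm_num

end Pool.Agent.Results.MP_e9f12e_ag.BernoulliCounterexample
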